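import Pool.Agent.helper81.EP.SpecC

set_option autoImplicit false

open Finset

namespace Pool.Agent.EP

theorem CF : CF_stmt := by
  intro A s y hA hs h
  by_contra hcon
  rw [not_le] at hcon
  obtain ⟨S, hS, hcard⟩ := Finset.exists_subset_card_eq (Nat.succ_le_of_lt hcon)
  have hmem : ∀ p ∈ S, p.Prime ∧ A < p ∧ p ∣ 24 * s - 1 := by
    intro p hp
    have := hS hp
    rw [Finset.mem_filter] at this
    exact this.2
  have h1 : ∏ p ∈ S, p ∣ 24 * s - 1 :=
    Finset.prod_primes_dvd _ (fun p hp => (hmem p hp).1.prime) (fun p hp => (hmem p hp).2.2)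
  have h2 : A ^ 5 ≤ ∏ p ∈ S, p := by
    have h3 : A ^ S.card ≤ ∏ p ∈ S, p := Finset.pow_card_le_prod S (fun p => p) A (fun p hp => (hmem p hp).2.1.le)
    rw [hcard] at h3
    exact h3
  have h4 := Nat.le_of_dvd (by omega) h1
  omega

end Pool.Agent.EP
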