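import Pool.Agent.helper7.EP.SpecA

set_option autoImplicit false

open Finset PowerSeries

noncomputable section

namespace Pool.Agent.EP

theorem IDK_pos {k : ℕ} (hk : Nat.Coprime k 6) : 0 < k := by
  rcases Nat.eq_zero_or_pos k with h | h
  · subst h
    norm_num at hk
  · exact h

theorem IDK_cop {a k w : ℕ} (ha : 2 ≤ a) (hk : Nat.Coprime k 6) (hw : w ∈ ws (k * 2 ^ a)) :
    0 < k * 2 ^ a - 3 * w ^ 2 ∧ Nat.Coprime (k * 2 ^ a - 3 * w ^ 2) 6 ∧
    ((k * 2 ^ a - 3 * w ^ 2 : ℕ) : ℤ) = k * 2 ^ a - 3 * (w : ℤ) ^ 2 := by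
  simp only [ws, Finset.mem_filter, Finset.mem_range] at hw
  obtain ⟨-, hw1, hw2⟩ := hw
  refine ⟨by omega, ?_, ?_⟩
  · have h2 : 2 ∣ k * 2 ^ a := Dvd.dvd.mul_left (dvd_pow_self 2 (by omega)) k
    have h3 : ¬ 3 ∣ k * 2 ^ a := by
      intro h
      rcases (Nat.Prime.dvd_mul Nat.prime_three).1 h with h | h
      · have h4 : 3 ∣ Nat.gcd k 6 := Nat.dvd_gcd h (by norm_num)
        rw [Nat.Coprime] at hk
        rw [hk] at h4
        omega
      · have := Nat.Prime.dvd_of_dvd_pow Nat.prime_three h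
        omega
    have h5 : (w ^ 2) % 2 = 1 := by rw [Nat.pow_mod, hw1]
    have h6 : ¬ 2 ∣ k * 2 ^ a - 3 * w ^ 2 := by omega
    have h7 : ¬ 3 ∣ k * 2 ^ a - 3 * w ^ 2 := by omega
    have h8 : Nat.Coprime (k * 2 ^ a - 3 * w ^ 2) 2 :=
      ((Nat.Prime.coprime_iff_not_dvd Nat.prime_two).2 h6).symm
    have h9 : Nat.Coprime (k * 2 ^ a - 3 * w ^ 2) 3 :=
      ((Nat.Prime.coprime_iff_not_dvd Nat.prime_three).2 h7).symm
    exact Nat.Coprime.mul_right h8 h9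
  · rw [Nat.cast_sub hw2.le]
    push_cast
    ring

theorem IDK (hJW : JW_stmt) (hJN : JN_stmt) (hNEG : NEG_stmt) (hPRD : PRD_stmt) (hWKP : WKP_stmt) :
    IDK_stmt := by
  classical
  intro a k ha hk M
  have hk0 : 0 < k := IDK_pos hk
  obtain ⟨f, hfW, hf⟩ := hJW k hk0 hk
  have hf0 : ∀ N : ℤ, N < -(k : ℤ) → f.coeff N = 0 := by
    intro N hN
    rw [hf N, hJN k N hk0 (by omega), if_neg (by omega)]
  have hex : ∀ w : ℕ, ∃ g : KK, w ∈ ws (k * 2 ^ a) →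
      g ∈ WW ∧ ∀ M : ℤ, g.coeff M = JG ac (k * 2 ^ a - 3 * w ^ 2) M := by
    intro w
    by_cases hw : w ∈ ws (k * 2 ^ a)
    · obtain ⟨h1, h2, -⟩ := IDK_cop ha hk hw
      obtain ⟨g, hg, hg'⟩ := hJW _ h1 h2
      exact ⟨g, fun _ => ⟨hg, hg'⟩⟩
    · exact ⟨0, fun h => absurd h hw⟩
  choose g hg using hex
  set F : KK := f ^ (2 ^ a) * vvx ^ 3 - ∑ w ∈ ws (k * 2 ^ a), g w with hF
  have hFW : F ∈ WW :=
    Submodule.sub_mem _ (hWKP a f ha hfW) (Submodule.sum_mem _ fun w hw => (hg w hw).1)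
  have hcoeff : ∀ M : ℤ, F.coeff M = ∑ u ∈ us a k M, JG ac k ((M - 3 * (u : ℤ) ^ 2) / 2 ^ a) -
      ∑ w ∈ ws (k * 2 ^ a), JG ac (k * 2 ^ a - 3 * w ^ 2) M := by
    intro M
    rw [hF, HahnSeries.coeff_sub, hPRD a k f hf0 M, HahnSeries.coeff_sum]
    congr 1
    · exact Finset.sum_congr rfl fun u _ => hf _
    · exact Finset.sum_congr rfl fun w hw => (hg w hw).2 M
  have hA : (0 : ℤ) < 2 ^ a := by positivity
  have hneg : ∀ M : ℤ, M < 0 → F.coeff M = 0 := by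
    intro M hM
    rw [hcoeff M, sub_eq_zero]
    have e1 : ∑ u ∈ us a k M, JG ac k ((M - 3 * (u : ℤ) ^ 2) / 2 ^ a) =
        ∑ u ∈ us a k M, if 3 * (u : ℤ) ^ 2 = M + k * 2 ^ a then (1 : ZMod 2) else 0 := by
      refine Finset.sum_congr rfl fun u hu => ?_
      simp only [us, Finset.mem_filter, Finset.mem_range] at hu
      obtain ⟨-, -, t, ht⟩ := hu
      rw [ht, Int.mul_ediv_cancel_left _ hA.ne']
      have hsq : 0 ≤ 3 * (u : ℤ) ^ 2 := by positivity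
      have ht0 : t < 0 := by
        by_contra hcon
        have : 0 ≤ 2 ^ a * t := mul_nonneg hA.le (not_lt.1 hcon)
        omega
      rw [hJN k t hk0 ht0]
      have hiff : (t = -(k : ℤ)) ↔ 3 * (u : ℤ) ^ 2 = M + k * 2 ^ a := by
        constructor
        · intro h
          rw [h] at ht
          linarith
        · intro h
          rw [h] at ht
          have h2 : (2 : ℤ) ^ a * t = 2 ^ a * (-(k : ℤ)) := by linarith
          exact mul_left_cancel₀ hA.ne' h2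
      simp only [hiff]
    have e2 : ∑ w ∈ ws (k * 2 ^ a), JG ac (k * 2 ^ a - 3 * w ^ 2) M =
        ∑ w ∈ ws (k * 2 ^ a), if 3 * (w : ℤ) ^ 2 = M + k * 2 ^ a then (1 : ZMod 2) else 0 := by
      refine Finset.sum_congr rfl fun w hw => ?_
      obtain ⟨h1, -, h3⟩ := IDK_cop ha hk hw
      rw [hJN _ M h1 hM, h3]
      have hiff : (M = -(k * 2 ^ a - 3 * (w : ℤ) ^ 2)) ↔ 3 * (w : ℤ) ^ 2 = M + k * 2 ^ a := by
        constructor
        · intro h; linarith
        · intro h; linarith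
      simp only [hiff]
    rw [e1, e2, ← Finset.sum_filter, ← Finset.sum_filter]
    refine Finset.sum_congr ?_ fun _ _ => rfl
    ext u
    simp only [us, ws, Finset.mem_filter, Finset.mem_range]
    constructor
    · rintro ⟨⟨-, h2, -⟩, h4⟩
      have h5 : 3 * u ^ 2 < k * 2 ^ a := by
        have : 3 * (u : ℤ) ^ 2 < ((k * 2 ^ a : ℕ) : ℤ) := by push_cast; linarith
        exact_mod_cast this
      refine ⟨⟨?_, h2, h5⟩, h4⟩
      nlinarith
    · rintro ⟨⟨-, h2, h3⟩, h4⟩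
      refine ⟨⟨?_, h2, ?_⟩, h4⟩
      · have h5 : (u : ℤ) ≤ M + k * 2 ^ a := by
          rw [← h4]
          nlinarith
        omega
      · rw [h4]
        exact ⟨-(k : ℤ), by ring⟩
  have hF0 : F = 0 := hNEG F hFW hneg
  have := hcoeff M
  rw [hF0, HahnSeries.coeff_zero] at this
  exact (sub_eq_zero.1 this.symm)

end Pool.Agent.EP
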