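import Pool.Agent.helper81.EP.SpecO

set_option autoImplicit false

open Finset
open scoped Real

noncomputable section

namespace Pool.Agent.EP

theorem OC_tri (r : ℕ) : ((8 * tri r + 1 : ℕ) : ℤ) = (2 * (r : ℤ) + 1) ^ 2 := by
  have h : 8 * tri r + 1 = (2 * r + 1) ^ 2 := by
    have h1 : tri r * 2 = r * (r + 1) := by
      unfold tri
      exact Nat.div_mul_cancel (Nat.even_mul_succ_self r).two_dvd
    nlinarith
  rw [h]
  push_cast
  ring

theorem OC : OC_stmt := by
  intro A m m' N hA hm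
  have key : ∀ p : ℕ × ℕ, tri p.1 + A * m = tri p.2 + A * m' →
      ((2 * (p.1 : ℤ) + 1) - (2 * (p.2 : ℤ) + 1)) * ((2 * (p.1 : ℤ) + 1) + (2 * (p.2 : ℤ) + 1)) =
        8 * A * ((m' : ℤ) - m) := by
    intro p hp
    have h1 := OC_tri p.1
    have h2 := OC_tri p.2
    have h3 : ((tri p.1 + A * m : ℕ) : ℤ) = ((tri p.2 + A * m' : ℕ) : ℤ) := by rw [hp]
    push_cast at h1 h2 h3
    linear_combination (-1) * h1 + h2 + 8 * h3
  have hK : 8 * A * (m - m' + (m' - m)) ≠ 0 := by
    have : m - m' + (m' - m) ≠ 0 := by omega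
    positivity
  have hKabs : ((8 * A * (m - m' + (m' - m)) : ℕ) : ℤ) = |8 * (A : ℤ) * ((m' : ℤ) - m)| := by
    rw [abs_mul, abs_of_nonneg (by positivity : (0 : ℤ) ≤ 8 * (A : ℤ))]
    push_cast
    congr 1
    rcases le_total m m' with h | h
    · rw [Nat.sub_eq_zero_of_le h, Nat.cast_sub h, abs_of_nonneg (by
        have : (m : ℤ) ≤ m' := by exact_mod_cast h
        linarith)]
      simp
    · rw [Nat.sub_eq_zero_of_le h, Nat.cast_sub h, abs_of_nonpos (by
        have : (m' : ℤ) ≤ m := by exact_mod_cast h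
        linarith)]
      simp
  refine Finset.card_le_card_of_injOn (fun p : ℕ × ℕ => (2 * p.1 + 1) + (2 * p.2 + 1)) ?_ ?_
  · intro p hp
    simp only [coe_filter, Set.mem_ofPred_eq] at hp
    have h := key p hp.2
    simp only [Finset.mem_coe, Nat.mem_divisors]
    refine ⟨?_, hK⟩
    have h1 : (((2 * p.1 + 1) + (2 * p.2 + 1) : ℕ) : ℤ) ∣ ((8 * A * (m - m' + (m' - m)) : ℕ) : ℤ) := by
      rw [hKabs, dvd_abs, ← h]
      push_cast
      exact dvd_mul_left _ _
    exact_mod_cast h1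
  · intro p hp q hq hpq
    simp only [coe_filter, Set.mem_ofPred_eq] at hp hq
    have h1 := key p hp.2
    have h2 := key q hq.2
    have h3 : (((2 * p.1 + 1) + (2 * p.2 + 1) : ℕ) : ℤ) = (((2 * q.1 + 1) + (2 * q.2 + 1) : ℕ) : ℤ) := by
      exact_mod_cast hpq
    push_cast at h3
    rw [← h2, ← h3] at h1
    have h4 : (0 : ℤ) < (2 * (p.1 : ℤ) + 1) + (2 * (p.2 : ℤ) + 1) := by positivity
    have h5 := mul_right_cancel₀ h4.ne' h1
    have h6 : (p.1 : ℤ) = q.1 := by linarith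
    have h7 : (p.2 : ℤ) = q.2 := by linarith
    exact Prod.ext (by exact_mod_cast h6) (by exact_mod_cast h7)

end Pool.Agent.EP
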